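import Pool.Agent.Helper70.GB.Types

/-!
# MP_02f2ca_gt, module A15: telescoping over boxes of configurations
-/

open Set MeasureTheory Filter Topology

namespace GB

/-- Number of points of a face of the box. -/
theorem card_face {m : ℕ} (R : ℕ) (j : Fin m) (a : ℤ) :
    ((Fintype.piFinset (Function.update (fun _ : Fin m => Finset.Icc (-R : ℤ) R) j {a})).card : ℝ)
      = (2 * R + 1) ^ (m - 1) := by
  rw [Fintype.card_piFinset]
  have h : (fun i => (Function.update (fun _ : Fin m => Finset.Icc (-R : ℤ) R) j {a} i).card)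
      = Function.update (fun _ : Fin m => 2 * R + 1) j 1 := by
    funext i
    by_cases hi : i = j
    · subst hi; simp
    · simp only [Function.update_of_ne hi, Int.card_Icc]
      omega
  rw [h, Finset.prod_update_of_mem (Finset.mem_univ j)]
  simp [Finset.card_sdiff]

theorem box_shift {m : ℕ} (R : ℕ) (j : Fin m) (δ : ℤ) (hδ : δ = 1 ∨ δ = -1)
    (g : (Fin m → ℤ) → ℝ) (B : ℝ) (hg : ∀ n, |g n| ≤ B) :
    |∑ n ∈ Fintype.piFinset (fun _ : Fin m => Finset.Icc (-R : ℤ) R),
      (g n - g (n + Pi.single j δ))| ≤ 2 * B * (2 * R + 1) ^ (m - 1) := by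
  classical
  set box := Fintype.piFinset (fun _ : Fin m => Finset.Icc (-R : ℤ) R) with hbox
  let e : (Fin m → ℤ) ≃ (Fin m → ℤ) := Equiv.addRight (Pi.single j δ)
  have hB : 0 ≤ B := (abs_nonneg _).trans (hg 0)
  have hmem : ∀ n : Fin m → ℤ, n ∈ box ↔ ∀ i, -(R : ℤ) ≤ n i ∧ n i ≤ R := by
    intro n; simp [hbox, Fintype.mem_piFinset]
  have hmem' : ∀ n : Fin m → ℤ, n ∈ box.map e.toEmbedding ↔
      ∀ i, -(R : ℤ) ≤ n i - (Pi.single j δ : Fin m → ℤ) i ∧
        n i - (Pi.single j δ : Fin m → ℤ) i ≤ R := by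
    intro n
    rw [Finset.mem_map_equiv, hmem]
    simp [e, Equiv.addRight, sub_eq_add_neg]
  have hsum : ∑ n ∈ box, g (n + Pi.single j δ) = ∑ n ∈ box.map e.toEmbedding, g n := by
    rw [Finset.sum_map]; rfl
  have hface : ∀ (s : Finset (Fin m → ℤ)) (a : ℤ),
      s ⊆ Fintype.piFinset (Function.update (fun _ : Fin m => Finset.Icc (-R : ℤ) R) j {a}) →
      |∑ n ∈ s, g n| ≤ B * (2 * R + 1) ^ (m - 1) := by
    intro s a hs
    calc |∑ n ∈ s, g n| ≤ ∑ n ∈ s, |g n| := Finset.abs_sum_le_sum_abs _ _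
      _ ≤ ∑ n ∈ s, B := Finset.sum_le_sum fun n _ => hg n
      _ = s.card * B := by rw [Finset.sum_const, nsmul_eq_mul]
      _ ≤ (2 * R + 1) ^ (m - 1) * B := by
        refine mul_le_mul_of_nonneg_right ?_ hB
        rw [← card_face R j a]
        exact_mod_cast Finset.card_le_card hs
      _ = B * (2 * R + 1) ^ (m - 1) := mul_comm _ _
  have h1 : ∃ a, box \ box.map e.toEmbedding ⊆
      Fintype.piFinset (Function.update (fun _ : Fin m => Finset.Icc (-R : ℤ) R) j {a}) := by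
    refine ⟨-δ * R, fun n hn => ?_⟩
    rw [Finset.mem_sdiff, hmem, hmem'] at hn
    obtain ⟨h1, h2⟩ := hn
    rw [Fintype.mem_piFinset]
    have h3 : ¬ (-(R : ℤ) ≤ n j - δ ∧ n j - δ ≤ R) := by
      intro h3
      apply h2
      intro i
      by_cases hi : i = j
      · subst hi; simpa using h3
      · rw [Pi.single_eq_of_ne hi, sub_zero]; exact h1 i
    intro i
    by_cases hi : i = j
    · subst hi
      rw [Function.update_self, Finset.mem_singleton]
      have := h1 i
      rcases hδ with rfl | rfl <;> omega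
    · rw [Function.update_of_ne hi, Finset.mem_Icc]; exact h1 i
  have h2 : ∃ a, box.map e.toEmbedding \ box ⊆
      Fintype.piFinset (Function.update (fun _ : Fin m => Finset.Icc (-R : ℤ) R) j {a}) := by
    refine ⟨δ * (R + 1), fun n hn => ?_⟩
    rw [Finset.mem_sdiff, hmem, hmem'] at hn
    obtain ⟨h2, h1⟩ := hn
    rw [Fintype.mem_piFinset]
    have h3 : ¬ (-(R : ℤ) ≤ n j ∧ n j ≤ R) := by
      intro h3
      apply h1
      intro i
      by_cases hi : i = j
      · subst hi; exact h3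
      · have := h2 i
        rwa [Pi.single_eq_of_ne hi, sub_zero] at this
    intro i
    by_cases hi : i = j
    · subst hi
      rw [Function.update_self, Finset.mem_singleton]
      have := h2 i
      rw [Pi.single_eq_same] at this
      rcases hδ with rfl | rfl <;> omega
    · rw [Function.update_of_ne hi, Finset.mem_Icc]
      have := h2 i
      rwa [Pi.single_eq_of_ne hi, sub_zero] at this
  obtain ⟨a, ha⟩ := h1
  obtain ⟨a', ha'⟩ := h2
  rw [Finset.sum_sub_distrib, hsum, ← Finset.sum_sdiff_sub_sum_sdiff]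
  calc |∑ x ∈ box \ box.map e.toEmbedding, g x - ∑ x ∈ box.map e.toEmbedding \ box, g x|
      ≤ |∑ x ∈ box \ box.map e.toEmbedding, g x| + |∑ x ∈ box.map e.toEmbedding \ box, g x| :=
        abs_sub _ _
    _ ≤ B * (2 * R + 1) ^ (m - 1) + B * (2 * R + 1) ^ (m - 1) :=
        add_le_add (hface _ a ha) (hface _ a' ha')
    _ = 2 * B * (2 * R + 1) ^ (m - 1) := by ring

/-- Sums along segments, in both directions. -/
theorem seg_bound (α : ℝ) (χ : ℝ → ℝ) (v ε : ℝ) (P : ℕ)
    (h : ∀ x : ℝ, |∑ l ∈ Finset.range P, χ (x + l * α) - P * v| ≤ ε * P) (x c : ℝ) (τ : ℤ)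
    (hτ : τ ∈ ({1, -1} : Finset ℤ)) :
    |∑ l ∈ Finset.range P, χ ((τ : ℝ) * (x + l * α) + c) - P * v| ≤ ε * P := by
  simp only [Finset.mem_insert, Finset.mem_singleton] at hτ
  rcases hτ with rfl | rfl
  · have h1 := h (x + c)
    have e : ∀ l : ℕ, χ (((1 : ℤ) : ℝ) * (x + l * α) + c) = χ (x + c + l * α) := by
      intro l; congr 1; push_cast; ring
    simp only [e]
    exact h1
  · have h1 := h (-x - (P - 1) * α + c)
    have e : ∑ l ∈ Finset.range P, χ (((-1 : ℤ) : ℝ) * (x + l * α) + c) =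
        ∑ l ∈ Finset.range P, χ (-x - (P - 1) * α + c + l * α) := by
      rw [← Finset.sum_range_reflect]
      apply Finset.sum_congr rfl
      intro l hl
      rw [Finset.mem_range] at hl
      congr 1
      have : ((P - 1 - l : ℕ) : ℝ) = P - 1 - l := by
        rw [Nat.cast_sub (by omega), Nat.cast_sub (by omega)]; push_cast; ring
      rw [this]
      push_cast
      ring
    rw [e]
    exact h1

/-- One function, one shift. -/
theorem shift_sum (α : ℝ) (m : ℕ) (b : Fin m → ℝ) (P R : ℕ) (χ : ℝ → ℝ) (v ε : ℝ)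
    (h : ∀ x : ℝ, |∑ l ∈ Finset.range P, χ (x + l * α) - P * v| ≤ ε * P) (x : ℝ) (j : Fin m)
    (δ : ℤ) (hδ : δ = 1 ∨ δ = -1) :
    |cfgSum α b P R χ x - cfgSum α b P R (fun y => χ (y + δ * b j)) x|
      ≤ 4 * ε * P * (2 * R + 1) ^ m := by
  have hε : 0 ≤ ε * P := (abs_nonneg _).trans (h 0)
  have hm : 1 ≤ m := by
    rcases Nat.eq_zero_or_pos m with h0 | h0
    · subst h0; exact j.elim0
    · exact h0
  let W : ℤ → ℝ → ℝ := fun τ c => ∑ l ∈ Finset.range P, χ ((τ : ℝ) * (x + l * α) + c) - P * v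
  have hW : ∀ τ ∈ ({1, -1} : Finset ℤ), ∀ c, |W τ c| ≤ ε * P :=
    fun τ hτ c => seg_bound α χ v ε P h x c τ hτ
  have key : cfgSum α b P R χ x - cfgSum α b P R (fun y => χ (y + δ * b j)) x =
      ∑ τ ∈ ({1, -1} : Finset ℤ), ∑ k ∈ Finset.Icc (-R : ℤ) R,
        ∑ n ∈ Fintype.piFinset (fun _ : Fin m => Finset.Icc (-R : ℤ) R),
          ((fun n : Fin m → ℤ => W τ (∑ i, (n i : ℝ) * b i + k * α)) n -
            (fun n : Fin m → ℤ => W τ (∑ i, (n i : ℝ) * b i + k * α)) (n + Pi.single j δ)) := by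
    rw [cfgSum, cfgSum, ← Finset.sum_sub_distrib]
    apply Finset.sum_congr rfl
    intro τ _
    rw [Finset.sum_comm, ← Finset.sum_comm (s := Finset.Icc (-R : ℤ) R),
      ← Finset.sum_sub_distrib]
    apply Finset.sum_congr rfl
    intro k _
    rw [← Finset.sum_sub_distrib]
    apply Finset.sum_congr rfl
    intro n _
    have e1 : ∑ i, ((((n + Pi.single j δ : Fin m → ℤ) i : ℤ)) : ℝ) * b i =
        ∑ i, (n i : ℝ) * b i + δ * b j := by
      have : ∀ i, ((((n + Pi.single j δ : Fin m → ℤ) i : ℤ)) : ℝ) * b i =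
          (n i : ℝ) * b i + (if i = j then (δ : ℝ) * b j else 0) := by
        intro i
        by_cases hi : i = j
        · subst hi; simp; ring
        · simp [hi]
      simp only [this, Finset.sum_add_distrib]
      simp
    simp only [W]
    rw [e1]
    have e2 : ∀ l : ℕ, (τ : ℝ) * (x + l * α) + (∑ i, (n i : ℝ) * b i + k * α) + δ * b j =
        (τ : ℝ) * (x + l * α) + (∑ i, (n i : ℝ) * b i + δ * b j + k * α) := by
      intro l; ring
    simp only [e2]
    ring
  rw [key]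
  have hb : ∀ τ ∈ ({1, -1} : Finset ℤ), |∑ k ∈ Finset.Icc (-R : ℤ) R,
        ∑ n ∈ Fintype.piFinset (fun _ : Fin m => Finset.Icc (-R : ℤ) R),
          ((fun n : Fin m → ℤ => W τ (∑ i, (n i : ℝ) * b i + k * α)) n -
            (fun n : Fin m → ℤ => W τ (∑ i, (n i : ℝ) * b i + k * α)) (n + Pi.single j δ))| ≤
      2 * (ε * P) * (2 * R + 1) ^ m := by
    intro τ hτ
    refine (Finset.abs_sum_le_sum_abs _ _).trans ?_
    refine (Finset.sum_le_sum fun k _ => box_shift R j δ hδ _ (ε * P)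
      (fun n => hW τ hτ _)).trans ?_
    rw [Finset.sum_const, nsmul_eq_mul, Int.card_Icc]
    have hc : (((R : ℤ) + 1 - -(R : ℤ)).toNat : ℝ) = 2 * R + 1 := by
      have : ((R : ℤ) + 1 - -(R : ℤ)).toNat = 2 * R + 1 := by omega
      rw [this]; push_cast; ring
    rw [hc]
    have hp : ((2 : ℝ) * R + 1) ^ m = (2 * R + 1) * (2 * R + 1) ^ (m - 1) := by
      rw [← pow_succ', Nat.sub_add_cancel hm]
    rw [hp]
    apply le_of_eq
    ring
  refine (Finset.abs_sum_le_sum_abs _ _).trans ?_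
  refine (Finset.sum_le_sum hb).trans ?_
  rw [Finset.sum_const, nsmul_eq_mul]
  have hc : ((({1, -1} : Finset ℤ).card : ℕ) : ℝ) = 2 := by
    rw [show ({1, -1} : Finset ℤ).card = 2 from by decide]; norm_num
  rw [hc]
  apply le_of_eq
  ring

/-- The configuration is symmetric. -/
theorem cfgSum_reflect (α : ℝ) (m : ℕ) (b : Fin m → ℝ) (P R : ℕ) (χ : ℝ → ℝ) (c x : ℝ) :
    cfgSum α b P R (fun y => χ (-y + c)) x = cfgSum α b P R (fun y => χ (y + c)) x := by
  have hneg : ∀ f : ℤ → ℝ, ∑ τ ∈ ({1, -1} : Finset ℤ), f (-τ) =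
      ∑ τ ∈ ({1, -1} : Finset ℤ), f τ := by
    intro f
    rw [Finset.sum_pair (by decide), Finset.sum_pair (by decide)]
    rw [neg_neg, add_comm]
  have hk : ∀ f : ℤ → ℝ, ∑ k ∈ Finset.Icc (-R : ℤ) R, f (-k) =
      ∑ k ∈ Finset.Icc (-R : ℤ) R, f k := by
    intro f
    refine Finset.sum_equiv (Equiv.neg ℤ) ?_ ?_
    · intro i; simp only [Finset.mem_Icc, Equiv.neg_apply]; omega
    · intro i _; rfl
  have hn : ∀ f : (Fin m → ℤ) → ℝ,
      ∑ n ∈ Fintype.piFinset (fun _ : Fin m => Finset.Icc (-R : ℤ) R), f (-n) =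
      ∑ n ∈ Fintype.piFinset (fun _ : Fin m => Finset.Icc (-R : ℤ) R), f n := by
    intro f
    refine Finset.sum_equiv (Equiv.neg _) ?_ ?_
    · intro n
      simp only [Fintype.mem_piFinset, Finset.mem_Icc, Equiv.neg_apply, Pi.neg_apply]
      exact forall_congr' fun i => by omega
    · intro i _; rfl
  rw [cfgSum, cfgSum, ← hneg]
  apply Finset.sum_congr rfl
  intro τ _
  rw [← hn]
  apply Finset.sum_congr rfl
  intro n _
  rw [← hk]
  apply Finset.sum_congr rfl
  intro k _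
  apply Finset.sum_congr rfl
  intro l _
  congr 1
  simp only [Pi.neg_apply, Int.cast_neg, neg_mul, Finset.sum_neg_distrib]
  ring

theorem config_sum (α : ℝ) (m : ℕ) (χ : Fin m → ℝ → ℝ) (v : Fin m → ℝ)
    (hχ : ∀ j, ∀ ε > 0, ∃ N₀ : ℕ, ∀ N : ℕ, N₀ ≤ N → ∀ x : ℝ,
      |∑ l ∈ Finset.range N, χ j (x + l * α) - N * v j| ≤ ε * N)
    (σ b : Fin m → ℝ) (hσ : ∀ j, σ j = 1 ∨ σ j = -1) (F : ℝ → ℝ)
    (hF : ∀ᵐ x : ℝ, F x = ∑ j, (χ j x - χ j (σ j * (x - b j)))) (ε : ℝ) (hε : 0 < ε) :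
    ∃ P₀ : ℕ, ∀ P : ℕ, P₀ ≤ P → ∀ R : ℕ, ∀ᵐ x : ℝ,
      |cfgSum α b P R F x| ≤ ε * P * (2 * R + 1) ^ m := by
  have hm1 : (0 : ℝ) < 4 * (m + 1) := by positivity
  choose N₀ hN₀ using fun j => hχ j (ε / (4 * (m + 1))) (div_pos hε hm1)
  refine ⟨Finset.univ.sup N₀, fun P hP R => ?_⟩
  have hj : ∀ j, ∀ x : ℝ, |∑ l ∈ Finset.range P, χ j (x + l * α) - P * v j| ≤
      ε / (4 * (m + 1)) * P :=
    fun j => hN₀ j P ((Finset.le_sup (Finset.mem_univ j)).trans hP)
  have hae : ∀ᵐ x : ℝ, ∀ (l : ℕ) (n : Fin m → ℤ) (k : ℤ) (τ : ℤ), τ ∈ ({1, -1} : Finset ℤ) →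
      F ((τ : ℝ) * (x + l * α) + (∑ i, (n i : ℝ) * b i + k * α)) =
        ∑ j, (χ j ((τ : ℝ) * (x + l * α) + (∑ i, (n i : ℝ) * b i + k * α)) -
          χ j (σ j * (((τ : ℝ) * (x + l * α) + (∑ i, (n i : ℝ) * b i + k * α)) - b j))) := by
    rw [ae_all_iff]; intro l
    rw [ae_all_iff]; intro n
    rw [ae_all_iff]; intro k
    rw [ae_all_iff]; intro τ
    by_cases hτ : τ ∈ ({1, -1} : Finset ℤ)
    · have hτ' := hτ
      simp only [Finset.mem_insert, Finset.mem_singleton] at hτ'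
      rcases hτ' with rfl | rfl
      · have h1 := (measurePreserving_add_right (volume : Measure ℝ)
          (l * α + (∑ i, (n i : ℝ) * b i + k * α))).quasiMeasurePreserving.ae hF
        filter_upwards [h1] with x hx _
        have e : ((1 : ℤ) : ℝ) * (x + l * α) + (∑ i, (n i : ℝ) * b i + k * α) =
            x + (l * α + (∑ i, (n i : ℝ) * b i + k * α)) := by push_cast; ring
        rw [e]
        exact hx
      · have h1 := (Measure.measurePreserving_sub_left (volume : Measure ℝ)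
          (-(l * α) + (∑ i, (n i : ℝ) * b i + k * α))).quasiMeasurePreserving.ae hF
        filter_upwards [h1] with x hx _
        have e : ((-1 : ℤ) : ℝ) * (x + l * α) + (∑ i, (n i : ℝ) * b i + k * α) =
            -(l * α) + (∑ i, (n i : ℝ) * b i + k * α) - x := by push_cast; ring
        rw [e]
        exact hx
    · exact Eventually.of_forall fun x h => absurd h hτ
  filter_upwards [hae] with x hx
  have hsum : cfgSum α b P R F x =
      ∑ j, (cfgSum α b P R (χ j) x - cfgSum α b P R (fun y => χ j (σ j * (y - b j))) x) := by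
    simp only [cfgSum]
    rw [Finset.sum_congr rfl fun τ hτ => Finset.sum_congr rfl fun n _ =>
      Finset.sum_congr rfl fun k _ => Finset.sum_congr rfl fun l _ => hx l n k τ hτ]
    simp only [← Finset.sum_sub_distrib]
    rw [Finset.sum_comm (s := Finset.univ)]
    apply Finset.sum_congr rfl
    intro τ _
    rw [Finset.sum_comm (s := Finset.univ)]
    apply Finset.sum_congr rfl
    intro n _
    rw [Finset.sum_comm (s := Finset.univ)]
    apply Finset.sum_congr rfl
    intro k _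
    rw [Finset.sum_comm (s := Finset.univ)]
  have hterm : ∀ j, |cfgSum α b P R (χ j) x -
      cfgSum α b P R (fun y => χ j (σ j * (y - b j))) x| ≤
      4 * (ε / (4 * (m + 1))) * P * (2 * R + 1) ^ m := by
    intro j
    rcases hσ j with h1 | h1
    · have e : (fun y => χ j (σ j * (y - b j))) = fun y => χ j (y + ((-1 : ℤ) : ℝ) * b j) := by
        funext y; congr 1; rw [h1]; push_cast; ring
      rw [e]
      exact shift_sum α m b P R (χ j) (v j) _ (hj j) x j (-1) (Or.inr rfl)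
    · have e : (fun y => χ j (σ j * (y - b j))) = fun y => χ j (-y + b j) := by
        funext y; congr 1; rw [h1]; ring
      rw [e, cfgSum_reflect]
      have e2 : (fun y => χ j (y + b j)) = fun y => χ j (y + ((1 : ℤ) : ℝ) * b j) := by
        funext y; congr 1; push_cast; ring
      rw [e2]
      exact shift_sum α m b P R (χ j) (v j) _ (hj j) x j 1 (Or.inl rfl)
  rw [hsum]
  refine (Finset.abs_sum_le_sum_abs _ _).trans ?_
  refine (Finset.sum_le_sum fun j _ => hterm j).trans ?_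
  rw [Finset.sum_const, Finset.card_univ, Fintype.card_fin, nsmul_eq_mul]
  have h0 : (0 : ℝ) ≤ ε * P * (2 * R + 1) ^ m := by positivity
  have h1 : (m : ℝ) * (4 * (ε / (4 * (m + 1))) * P * (2 * R + 1) ^ m) =
      (m / (m + 1)) * (ε * P * (2 * R + 1) ^ m) := by
    field_simp
  rw [h1]
  have h2 : (m : ℝ) / (m + 1) ≤ 1 := by
    rw [div_le_one (by positivity)]; linarith
  calc (m : ℝ) / (m + 1) * (ε * P * (2 * R + 1) ^ m) ≤ 1 * (ε * P * (2 * R + 1) ^ m) :=
        mul_le_mul_of_nonneg_right h2 h0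
    _ = _ := one_mul _

end GB
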